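import Pool.Agent.Lib_helper35.PT.Cut
import Pool.Agent.Lib_helper68.PT.K1

/-!
# The core inequality of the lower bound
-/

open MeasureTheory Set Metric Filter Topology
open scoped RealInnerProductSpace NNReal ENNReal Gradient

namespace PTor
namespace KLow

open K1

variable {d : ℕ} {p s : ℝ} {Ω : Set (E d)} {w : E d → ℝ} {ε C : ℝ} {ψ B : ℝ → ℝ}

/-- the (star) part of the integrand -/
noncomputable def F1 (d : ℕ) (p m : ℝ) (ψ B : ℝ → ℝ) (t G z : ℝ) : ℝ :=
  t * ψ (t * G) * G + d * B (t * G) - m * (t * ψ (t * G)) * (1 + z) ^ (1 / p)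

/-- the `(T_G)` part of the integrand -/
noncomputable def F2 (p s : ℝ) (ψ B : ℝ → ℝ) (t G z : ℝ) : ℝ :=
  t * ψ (t * G) * (z * lt p s t z) -
    B (t * G) / G * ((1 + z) * (lt p s t z + s * z * dlt p s t z))

/-- bounds -/
theorem F1_bound (h : Cut ε C ψ B) (hps : p.HolderConjugate s) {m t G z Z : ℝ} (ht : 0 < t)
    (ht1 : t < 1) (hG0 : 0 < G) (hG : G ≤ m) (hz : 0 ≤ z) (hzZ : ε ≤ G → z ≤ Z) (hZ0 : 0 ≤ Z) :
    |F1 d p m ψ B t G z| ≤ C * m + d * (C * m) + m * C * (1 + Z) ^ (1 / p) := by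
  have hC := h.C_nonneg
  have hp := hps.pos
  have hm : 0 < m := hG0.trans_le hG
  have htG : t * G ≤ G := by nlinarith
  by_cases hc : ε ≤ G
  · have hZ := hzZ hc
    have hz1 : (1 + z) ^ (1 / p) ≤ (1 + Z) ^ (1 / p) :=
      Real.rpow_le_rpow (by linarith) (by linarith) (by positivity)
    have hz2 : 0 ≤ (1 + z) ^ (1 / p) := by positivity
    have a1 := h.nn (t * G)
    have a2 := h.le (t * G)
    have a3 := h.Bnn (t * G)
    have a4 := h.Ble (y := t * G) (by positivity)
    have a5 : C * (t * G) ≤ C * m := by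
      apply mul_le_mul_of_nonneg_left _ hC; linarith
    have a6 : t * ψ (t * G) ≤ C := by nlinarith
    have a7 : 0 ≤ t * ψ (t * G) := by positivity
    unfold F1
    have b1 : |t * ψ (t * G) * G| ≤ C * m := by
      rw [abs_of_nonneg (by positivity)]
      exact mul_le_mul a6 hG hG0.le hC
    have b2 : |d * B (t * G)| ≤ d * (C * m) := by
      rw [abs_of_nonneg (by positivity)]
      gcongr
      linarith
    have b3 : |m * (t * ψ (t * G)) * (1 + z) ^ (1 / p)| ≤ m * C * (1 + Z) ^ (1 / p) := by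
      rw [abs_of_nonneg (by positivity)]
      gcongr
    calc |t * ψ (t * G) * G + d * B (t * G) - m * (t * ψ (t * G)) * (1 + z) ^ (1 / p)|
        ≤ |t * ψ (t * G) * G + d * B (t * G)| + |m * (t * ψ (t * G)) * (1 + z) ^ (1 / p)| :=
          abs_sub _ _
      _ ≤ |t * ψ (t * G) * G| + |d * B (t * G)| + |m * (t * ψ (t * G)) * (1 + z) ^ (1 / p)| := by
          gcongr; exact abs_add_le _ _
      _ ≤ _ := by linarith
  · push Not at hc
    unfold F1
    rw [h.zero _ (by linarith), h.Bzero (by linarith)]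
    simp only [mul_zero, zero_mul, add_zero, sub_zero, abs_zero]
    positivity

theorem F2_bound (h : Cut ε C ψ B) (hps : p.HolderConjugate s) {t G z Z : ℝ} (ht : 0 < t)
    (ht1 : t < 1) (hG0 : 0 < G) (hz : 0 ≤ z) (hzZ : ε ≤ G → z ≤ Z) (hZ0 : 0 ≤ Z) :
    |F2 p s ψ B t G z| ≤ C * (1 + Z) ^ (1 / p) + C * (s * (1 + Z) ^ (1 / p)) := by
  have hC := h.C_nonneg
  have hp := hps.pos
  have hs := hps.symm.pos
  have htG : t * G ≤ G := by nlinarith
  by_cases hc : ε ≤ G
  · have hZ := hzZ hc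
    have hz1 : (1 + z) ^ (1 / p) ≤ (1 + Z) ^ (1 / p) :=
      Real.rpow_le_rpow (by linarith) (by linarith) (by positivity)
    have hz2 : 0 ≤ (1 + z) ^ (1 / p) := by positivity
    have a1 := h.nn (t * G)
    have a2 := h.le (t * G)
    have a3 := h.Bnn (t * G)
    have a4 := h.Ble (y := t * G) (by positivity)
    have a6 : t * ψ (t * G) ≤ C := by nlinarith
    have a7 : 0 ≤ t * ψ (t * G) := by positivity
    have a8 : B (t * G) / G ≤ C := by
      rw [div_le_iff₀ hG0]
      nlinarith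
    have a9 : 0 ≤ B (t * G) / G := by positivity
    have l0 := lt_nonneg hps ht ht1 hz
    have l1 := lt_le hps ht ht1 hz
    have l2 : z * lt p s t z ≤ (1 + z) ^ (1 / p) := by
      rw [← one_add_mul_rpow p hz]
      have : 0 ≤ (1 + z) ^ (1 / p - 1) := by positivity
      nlinarith
    have l3 : |(1 + z) * (lt p s t z + s * z * dlt p s t z)| ≤ s * (1 + z) ^ (1 / p) := by
      have := comb_bound hps ht ht1 hz
      rw [deriv_lt hps ht ht1 hz] at this
      rw [abs_mul, abs_of_nonneg (by linarith : 0 ≤ 1 + z)]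
      calc (1 + z) * |lt p s t z + s * z * dlt p s t z|
          ≤ (1 + z) * (s * (1 + z) ^ (1 / p - 1)) := by gcongr
        _ = s * ((1 + z) * (1 + z) ^ (1 / p - 1)) := by ring
        _ = _ := by rw [one_add_mul_rpow p hz]
    unfold F2
    have b1 : |t * ψ (t * G) * (z * lt p s t z)| ≤ C * (1 + Z) ^ (1 / p) := by
      rw [abs_of_nonneg (by positivity)]
      exact mul_le_mul a6 (l2.trans hz1) (by positivity) hC
    have b2 : |B (t * G) / G * ((1 + z) * (lt p s t z + s * z * dlt p s t z))| ≤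
        C * (s * (1 + Z) ^ (1 / p)) := by
      rw [abs_mul, abs_of_nonneg a9]
      refine mul_le_mul a8 (l3.trans ?_) (abs_nonneg _) hC
      gcongr
    exact (abs_sub _ _).trans (by linarith)
  · push Not at hc
    unfold F2
    rw [h.zero _ (by linarith), h.Bzero (by linarith)]
    simp only [mul_zero, zero_mul, zero_div, sub_zero, abs_zero]
    positivity

theorem measurable_F1 (h : Cut ε C ψ B) (m : ℝ) :
    Measurable fun q : ℝ × ℝ × ℝ => F1 d p m ψ B q.1 q.2.1 q.2.2 := by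
  have h1 := h.cont.measurable
  have h2 := h.contB.measurable
  unfold F1
  fun_prop

theorem measurable_F2 (h : Cut ε C ψ B) :
    Measurable fun q : ℝ × ℝ × ℝ => F2 p s ψ B q.1 q.2.1 q.2.2 := by
  have h1 := h.cont.measurable
  have h2 := h.contB.measurable
  have h3 : Measurable fun q : ℝ × ℝ × ℝ => lt p s q.1 q.2.2 :=
    (measurable_lt p s).comp (measurable_fst.prodMk measurable_snd.snd)
  have h4 : Measurable fun q : ℝ × ℝ × ℝ => dlt p s q.1 q.2.2 :=
    (measurable_dlt p s).comp (measurable_fst.prodMk measurable_snd.snd)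
  unfold F2
  fun_prop

/-- (star), integrated -/
theorem int_F1 (h : Cut ε C ψ B) (hps : p.HolderConjugate s) (hΩ : Ω ∈ K d)
    (hw : IsTor p Ω w) (hconc : ConcaveOn ℝ Ω (GG s w)) {M : ℝ} {x₀ : E d}
    (hM : ∀ x, w x ≤ M) (hM0 : 0 < M) (hx₀ : w x₀ = M)
    (hL : LipschitzWith 1 (fun x => (s * (M - w x)) ^ (1 / s))) {t : ℝ} (ht : 0 < t)
    (ht1 : t < 1) :
    0 ≤ ∫ x in Ω, F1 d p ((s * M) ^ (1 / s)) ψ B t (GG s w x) (‖∇ (GG s w) x‖ ^ p) := by
  have hs0 := hps.symm.pos
  have hs1 := hps.symm.lt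
  set m : ℝ := (s * M) ^ (1 / s) with hm
  set G := GG s w with hG
  have hΩm : MeasurableSet Ω := hΩ.2.2.1.measurableSet
  obtain ⟨L, hLw⟩ := hw.lip
  have hlip := lipZ_B h hs1 ht ht1 hw
  have hcs := LipZ.hasCompactSupport hΩ.2.1 hlip
  have hkey := integral_inner_sub_grad hlip.1 hcs x₀
  have hgm : ∀ x, GG s w x ≤ m := fun x => by
    rw [GG, hm]
    exact Real.rpow_le_rpow (mul_nonneg hs0.le (hw.nonneg x))
      (mul_le_mul_of_nonneg_left (hM x) hs0.le) (by positivity)
  -- integrability of `⟨x - x₀, ∇φ⟩`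
  have hi1 : IntegrableOn (fun x => ⟪x - x₀, ∇ (fun y => B (t * GG s w y)) x⟫) Ω volume := by
    obtain ⟨D, hD⟩ := hlip.1
    obtain ⟨R, hR⟩ := hΩ.2.1.subset_closedBall x₀
    refine J.intOn hΩ (Measurable.inner (by fun_prop) (measurable_grad _)) (B := R * D)
      fun x hx => ?_
    refine (abs_real_inner_le_norm _ _).trans ?_
    have h1 : ‖x - x₀‖ ≤ R := by
      have := hR hx
      rwa [mem_closedBall, dist_eq_norm] at this
    exact mul_le_mul h1 (norm_grad_le hD x) (norm_nonneg _) ((norm_nonneg _).trans h1)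
  have e1 : ∫ x, ⟪x - x₀, ∇ (fun y => B (t * GG s w y)) x⟫ =
      ∫ x in Ω, ⟪x - x₀, ∇ (fun y => B (t * GG s w y)) x⟫ := by
    symm
    refine setIntegral_eq_integral_of_ae_compl_eq_zero ?_
    filter_upwards [ae_grad_zero_of_zero hlip.1] with x hx hxΩ
    rw [hx (hlip.2 x hxΩ), inner_zero_right]
  have e2 : ∫ x, B (t * GG s w x) = ∫ x in Ω, B (t * GG s w x) :=
    (setIntegral_eq_integral_of_forall_compl_eq_zero fun x hx => hlip.2 x hx).symm
  rw [e1, e2] at hkey
  have hiB : IntegrableOn (fun x => B (t * GG s w x)) Ω volume :=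
    (hlip.1.integrable hcs).integrableOn
  have e3 : 0 = ∫ x in Ω, (d * B (t * GG s w x) +
      ⟪x - x₀, ∇ (fun y => B (t * GG s w y)) x⟫) := by
    rw [integral_add (hiB.const_mul _) hi1, hkey, integral_const_mul]
    ring
  have hF : Measurable fun x => F1 d p m ψ B t (GG s w x) (‖∇ (GG s w) x‖ ^ p) := by
    have h1 : Measurable (GG s w) := (continuous_GG hs0 hw.lip.continuous).measurable
    exact (measurable_F1 h m).comp (measurable_const.prodMk (h1.prodMk (measurable_z p _)))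
  have hiF : IntegrableOn (fun x => F1 d p m ψ B t (GG s w x) (‖∇ (GG s w) x‖ ^ p)) Ω volume :=
    J.intOn hΩ hF fun x hx => F1_bound h hps ht ht1 (GG_pos hs0 (hw.pos x hx)) (hgm x)
      (Real.rpow_nonneg (norm_nonneg _) _) (fun hc => z_le' hps hw hLw h.eps hx hc)
      (by have := h.eps; positivity)
  rw [e3]
  refine setIntegral_mono_ae_restrict ((hiB.const_mul _).add hi1) hiF ?_
  rw [EventuallyLE, ae_restrict_iff' hΩm]
  filter_upwards [ae_diff hw.lip] with x hdx hx
  have hst := star hps hw hconc hM hM0 hx₀ hL hx hdx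
  rw [grad_B h hs1 t hw hx hdx, real_inner_smul_right, real_inner_comm]
  unfold F1
  have a1 : 0 ≤ t * ψ (t * GG s w x) := mul_nonneg ht.le (h.nn _)
  have a2 := mul_le_mul_of_nonneg_left hst a1
  rw [← hm] at a2
  linarith

/-- `(T_G)` with `k(x) = B(t x)/x`, `l = l_t` -/
theorem int_F2 (h : Cut ε C ψ B) (hTG : StmtTG) (hd : 0 < d) (hps : p.HolderConjugate s)
    (hΩ : Ω ∈ K d) (hw : IsTor p Ω w) (hconc : ConcaveOn ℝ Ω (GG s w)) {t : ℝ} (ht : 0 < t)
    (ht1 : t < 1) :
    0 ≤ ∫ x in Ω, F2 p s ψ B t (GG s w x) (‖∇ (GG s w) x‖ ^ p) := by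
  have hs0 := hps.symm.pos
  have hs1 := hps.symm.lt
  have hε := h.eps
  obtain ⟨t1, t2, -, -, -⟩ := ts_lt hps ht ht1
  set k : ℝ → ℝ := fun y => B (t * y) / y with hk
  have hkε : ∀ y ≤ ε, k y = 0 := by
    intro y hy
    simp only [hk]
    rw [h.Bzero, zero_div]
    rcases le_total y 0 with h0 | h0
    · have : t * y ≤ 0 := mul_nonpos_of_nonneg_of_nonpos ht.le h0
      linarith
    · nlinarith
  have hk0 : ∀ y, 0 ≤ k y := by
    intro y
    rcases le_total y 0 with h0 | h0
    · rw [hkε y (h0.trans hε.le)]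
    · exact div_nonneg (h.Bnn _) h0
  have hkC : ContDiff ℝ 1 k := by
    rw [contDiff_iff_contDiffAt]
    intro y
    rcases lt_or_ge y ε with h1 | h1
    · have : k =ᶠ[𝓝 y] fun _ => 0 := by
        filter_upwards [Iio_mem_nhds h1] with u hu
        exact hkε u (le_of_lt hu)
      exact contDiffAt_const.congr_of_eventuallyEq this
    · have hy : 0 < y := lt_of_lt_of_le hε h1
      have h3 : ContDiffAt ℝ 1 (fun y : ℝ => B (t * y)) y :=
        h.contDiff.contDiffAt.comp y (by fun_prop)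
      exact h3.div contDiffAt_id hy.ne'
  have key := hTG d p s Ω w hd hps hΩ hw hconc k (lt p s t) ε (1 - t ^ s) hε (by linarith) hkC hk0
    hkε (by
      have := contDiffOn_lt hps ht 2
      rwa [neg_sub]) (fun z hz => deriv_lt_nonpos hps ht ht1 hz)
  refine key.trans (le_of_eq ?_)
  refine setIntegral_congr_fun hΩ.2.2.1.measurableSet fun x hx => ?_
  set G := GG s w x with hG
  have hG0 : 0 < G := GG_pos hs0 (hw.pos x hx)
  set z := ‖∇ (GG s w) x‖ ^ p with hz
  have hz0 : 0 ≤ z := Real.rpow_nonneg (norm_nonneg _) _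
  rw [deriv_lt hps ht ht1 hz0]
  have hdk : deriv k G = (ψ (t * G) * t * G - B (t * G)) / G ^ 2 := by
    have h1 : HasDerivAt (fun y => B (t * y)) (ψ (t * G) * t) G := by
      have := (h.der (t * G)).comp G ((hasDerivAt_id G).const_mul t)
      refine this.congr_deriv ?_
      ring
    have h2 := h1.div (hasDerivAt_id G) hG0.ne'
    have h3 : HasDerivAt k ((ψ (t * G) * t * G - B (t * G)) / G ^ 2) G := by
      refine h2.congr_deriv ?_
      simp only [id, mul_one]
    exact h3.deriv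
  rw [hdk]
  simp only [hk]
  unfold F2
  field_simp
  ring

/-- the kernel identity in the form we need -/
theorem kernel (h : Cut ε C ψ B) (hps : p.HolderConjugate s) {z G : ℝ} (hz : 0 ≤ z)
    (hG : 0 < G) (m : ℝ) :
    ∫ t in Ioo (0:ℝ) 1, (wt s t * (F1 d p m ψ B t G z + m * F2 p s ψ B t G z) -
      wt s t * ((t * G - m) * ψ (t * G) + d * B (t * G))) = 0 := by
  have key := kernel_zero hps hz hG.ne' h.contDiff h.b0
  rw [intervalIntegral.integral_of_le zero_le_one, integral_Ioc_eq_integral_Ioo] at key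
  have e : ∫ t in Ioo (0:ℝ) 1, (wt s t * (F1 d p m ψ B t G z + m * F2 p s ψ B t G z) -
      wt s t * ((t * G - m) * ψ (t * G) + d * B (t * G))) =
      ∫ t in Ioo (0:ℝ) 1, m * (wt s t * (t * z * lt p s t z - t * (1 + z) ^ (1 / p) + 1) *
      deriv B (t * G) - wt s t * (1 + z) * (lt p s t z + s * z * deriv (lt p s t) z) *
        (B (t * G) / G)) := by
    apply setIntegral_congr_fun measurableSet_Ioo
    intro t ht
    simp only []
    rw [h.deriv_eq, deriv_lt hps ht.1 ht.2 hz]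
    unfold F1 F2
    ring
  rw [e, integral_const_mul, key, mul_zero]

/-- the core inequality: no gradient left -/
theorem core (h : Cut ε C ψ B) (hTG : StmtTG) (hd : 0 < d) (hps : p.HolderConjugate s)
    (hΩ : Ω ∈ K d) (hw : IsTor p Ω w) (hconc : ConcaveOn ℝ Ω (GG s w)) {M : ℝ} {x₀ : E d}
    (hM : ∀ x, w x ≤ M) (hM0 : 0 < M) (hx₀ : w x₀ = M)
    (hL : LipschitzWith 1 (fun x => (s * (M - w x)) ^ (1 / s))) :
    0 ≤ ∫ x in Ω, ∫ t in Ioo (0:ℝ) 1, wt s t *
      ((t * GG s w x - (s * M) ^ (1 / s)) * ψ (t * GG s w x) + d * B (t * GG s w x)) := by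
  have hs0 := hps.symm.pos
  have hs1 := hps.symm.lt
  have hε := h.eps
  have hC := h.C_nonneg
  set m : ℝ := (s * M) ^ (1 / s) with hm
  have hm0 : 0 < m := by positivity
  set G := GG s w with hG
  have hΩm : MeasurableSet Ω := hΩ.2.2.1.measurableSet
  obtain ⟨L, hLw⟩ := hw.lip
  have hGm : Measurable G := (continuous_GG hs0 hw.lip.continuous).measurable
  have hzm := measurable_z p G
  have hG0 : ∀ x ∈ Ω, 0 < G x := fun x hx => GG_pos hs0 (hw.pos x hx)
  have hGle : ∀ x, G x ≤ m := fun x => by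
    rw [hG, GG, hm]
    exact Real.rpow_le_rpow (mul_nonneg hs0.le (hw.nonneg x))
      (mul_le_mul_of_nonneg_left (hM x) hs0.le) (by positivity)
  set Z : ℝ := (L : ℝ) ^ p / ε ^ s with hZ
  have hZ0 : 0 ≤ Z := by positivity
  have hzZ : ∀ x ∈ Ω, ε ≤ G x → ‖∇ G x‖ ^ p ≤ Z := fun x hx hc => z_le' hps hw hLw hε hx hc
  have hz0 : ∀ x, 0 ≤ ‖∇ G x‖ ^ p := fun x => Real.rpow_nonneg (norm_nonneg _) _
  set C1 : ℝ := C * m + d * (C * m) + m * C * (1 + Z) ^ (1 / p) with hC1
  set C2 : ℝ := C * (1 + Z) ^ (1 / p) + C * (s * (1 + Z) ^ (1 / p)) with hC2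
  have hwi : IntegrableOn (wt s) (Ioo 0 1) volume := by
    have := intervalIntegrable_wt hs1
    rwa [intervalIntegrable_iff_integrableOn_Ioo_of_le zero_le_one] at this
  have hw0 : ∀ t ∈ Ioo (0:ℝ) 1, 0 ≤ wt s t := fun t ht => by
    linarith [(wt_bounds hs1 ht.1 ht.2).1]
  -- the big integrand
  set H : E d → ℝ → ℝ := fun x t =>
    wt s t * (F1 d p m ψ B t (G x) (‖∇ G x‖ ^ p) + m * F2 p s ψ B t (G x) (‖∇ G x‖ ^ p)) with hH
  have hHm : Measurable (Function.uncurry H) := by
    have m0 : Measurable fun q : E d × ℝ => (q.2, G q.1, ‖∇ G q.1‖ ^ p) :=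
      measurable_snd.prodMk ((hGm.comp measurable_fst).prodMk (hzm.comp measurable_fst))
    have m1 := (measurable_F1 (d := d) (p := p) h m).comp m0
    have m2 := (measurable_F2 (p := p) (s := s) h).comp m0
    have m3 : Measurable fun q : E d × ℝ => wt s q.2 := (measurable_wt s).comp measurable_snd
    exact m3.mul (m1.add (measurable_const.mul m2))
  have hHb : ∀ x ∈ Ω, ∀ t ∈ Ioo (0:ℝ) 1, |H x t| ≤ (C1 + m * C2) * wt s t := by
    intro x hx t ht
    have b1 := F1_bound (d := d) h hps ht.1 ht.2 (hG0 x hx) (hGle x) (hz0 x) (hzZ x hx) hZ0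
    have b2 := F2_bound h hps ht.1 ht.2 (hG0 x hx) (hz0 x) (hzZ x hx) hZ0
    simp only [hH]
    rw [abs_mul, abs_of_nonneg (hw0 t ht), mul_comm]
    apply mul_le_mul_of_nonneg_right _ (hw0 t ht)
    refine (abs_add_le _ _).trans ?_
    rw [abs_mul, abs_of_pos hm0]
    gcongr
  have hvol : volume Ω < ⊤ := J.vol_lt_top hΩ
  have : IsFiniteMeasure (volume.restrict Ω) := ⟨by rwa [Measure.restrict_apply_univ]⟩
  have hHi : Integrable (Function.uncurry H)
      ((volume.restrict Ω).prod (volume.restrict (Ioo (0:ℝ) 1))) := by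
    have hbi : Integrable (fun q : E d × ℝ => (1:ℝ) * ((C1 + m * C2) * wt s q.2))
        ((volume.restrict Ω).prod (volume.restrict (Ioo (0:ℝ) 1))) :=
      (integrable_const (1:ℝ)).mul_prod (hwi.const_mul (C1 + m * C2))
    refine hbi.mono' hHm.aestronglyMeasurable ?_
    rw [Measure.prod_restrict, ae_restrict_iff' (hΩm.prod measurableSet_Ioo)]
    refine Eventually.of_forall fun q hq => ?_
    rw [Real.norm_eq_abs, one_mul]
    exact hHb q.1 hq.1 q.2 hq.2
  -- Fubini
  have hswap := integral_integral_swap hHi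
  have hpos : 0 ≤ ∫ t in Ioo (0:ℝ) 1, ∫ x in Ω, H x t := by
    apply setIntegral_nonneg measurableSet_Ioo
    intro t ht
    have i1 : IntegrableOn (fun x => F1 d p m ψ B t (G x) (‖∇ G x‖ ^ p)) Ω volume := by
      refine J.intOn hΩ ?_ fun x hx => F1_bound (d := d) h hps ht.1 ht.2 (hG0 x hx) (hGle x)
        (hz0 x) (hzZ x hx) hZ0
      exact (measurable_F1 h m).comp (measurable_const.prodMk (hGm.prodMk hzm))
    have i2 : IntegrableOn (fun x => F2 p s ψ B t (G x) (‖∇ G x‖ ^ p)) Ω volume := by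
      refine J.intOn hΩ ?_ fun x hx => F2_bound h hps ht.1 ht.2 (hG0 x hx)
        (hz0 x) (hzZ x hx) hZ0
      exact (measurable_F2 h).comp (measurable_const.prodMk (hGm.prodMk hzm))
    have n1 := int_F1 h hps hΩ hw hconc hM hM0 hx₀ hL ht.1 ht.2
    have n2 := int_F2 h hTG hd hps hΩ hw hconc ht.1 ht.2
    simp only [hH]
    rw [integral_const_mul, integral_add i1 (i2.const_mul m), integral_const_mul]
    exact mul_nonneg (hw0 t ht) (add_nonneg n1 (mul_nonneg hm0.le n2))
  rw [← hswap] at hpos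
  refine hpos.trans (le_of_eq ?_)
  refine setIntegral_congr_fun hΩm fun x hx => ?_
  have j1 : IntegrableOn (H x) (Ioo 0 1) volume := by
    refine (hwi.const_mul (C1 + m * C2)).mono' (hHm.comp measurable_prodMk_left).aestronglyMeasurable
      ?_
    rw [ae_restrict_iff' measurableSet_Ioo]
    exact Eventually.of_forall fun t ht => hHb x hx t ht
  have j2 : IntegrableOn (fun t => wt s t *
      ((t * G x - m) * ψ (t * G x) + d * B (t * G x))) (Ioo 0 1) volume := by
    have h1 := h.cont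
    have h2 := h.contB
    have := intervalIntegrable_wt_mul hs1
      (f := fun t => (t * G x - m) * ψ (t * G x) + d * B (t * G x)) (by fun_prop)
    rwa [intervalIntegrable_iff_integrableOn_Ioo_of_le zero_le_one] at this
  have hker := kernel (d := d) h hps (hz0 x) (hG0 x hx) m
  rw [integral_sub j1 j2, sub_eq_zero] at hker
  exact hker

end KLow
end PTor
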