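import Pool.Agent.Lib_helper35.PT.Star
import Pool.Agent.Lib_helper64.PT.J3

/-!
# Cut-off functions of `G`, the integrated (star) inequality and `(T_G)`
-/

open MeasureTheory Set Metric Filter Topology
open scoped RealInnerProductSpace NNReal ENNReal Gradient

namespace PTor
namespace KLow

variable {d : ℕ} {p s : ℝ} {Ω : Set (E d)} {w : E d → ℝ} {ε C : ℝ} {ψ B : ℝ → ℝ}

/-- `ψ` is continuous, bounded, nonnegative, vanishes on `(-∞, ε]`, and `B` is its primitive. -/
structure Cut (ε C : ℝ) (ψ B : ℝ → ℝ) : Prop where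
  eps : 0 < ε
  cont : Continuous ψ
  nn : ∀ y, 0 ≤ ψ y
  le : ∀ y, ψ y ≤ C
  zero : ∀ y ≤ ε, ψ y = 0
  der : ∀ y, HasDerivAt B (ψ y) y
  b0 : B 0 = 0

namespace Cut

theorem C_nonneg (h : Cut ε C ψ B) : 0 ≤ C := (h.nn 0).trans (h.le 0)

theorem deriv_eq (h : Cut ε C ψ B) : deriv B = ψ := funext fun y => (h.der y).deriv

theorem contDiff (h : Cut ε C ψ B) : ContDiff ℝ 1 B := by
  rw [contDiff_one_iff_deriv]
  exact ⟨fun y => (h.der y).differentiableAt, h.deriv_eq ▸ h.cont⟩

theorem contB (h : Cut ε C ψ B) : Continuous B := h.contDiff.continuous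

theorem lipB (h : Cut ε C ψ B) : LipschitzWith C.toNNReal B := by
  apply lipschitzWith_of_nnnorm_deriv_le (fun y => (h.der y).differentiableAt)
  intro y
  rw [h.deriv_eq, ← NNReal.coe_le_coe, coe_nnnorm, Real.norm_of_nonneg (h.nn y),
    Real.coe_toNNReal _ h.C_nonneg]
  exact h.le y

theorem mono (h : Cut ε C ψ B) : Monotone B :=
  monotone_of_deriv_nonneg (fun y => (h.der y).differentiableAt)
    (fun y => by rw [h.deriv_eq]; exact h.nn y)

theorem Bzero (h : Cut ε C ψ B) {y : ℝ} (hy : y ≤ ε) : B y = 0 := by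
  have key : ∀ a b : ℝ, a ≤ b → b ≤ ε → B b = B a := by
    intro a b hab hb
    refine constant_of_derivWithin_zero (f := B) (a := a) (b := b)
      (fun x _ => (h.der x).differentiableAt.differentiableWithinAt) ?_ b ⟨hab, le_rfl⟩
    intro x hx
    rw [(h.der x).hasDerivWithinAt.derivWithin (uniqueDiffOn_Icc (hx.1.trans_lt hx.2) x ⟨hx.1, hx.2.le⟩)]
    exact h.zero x (hx.2.le.trans hb)
  rcases le_total y 0 with h0 | h0
  · rw [← key y 0 h0 h.eps.le]; exact h.b0
  · rw [key 0 y h0 hy]; exact h.b0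

theorem Bnn (h : Cut ε C ψ B) (y : ℝ) : 0 ≤ B y := by
  rcases le_total y ε with h0 | h0
  · rw [h.Bzero h0]
  · rw [← h.Bzero le_rfl]; exact h.mono h0

theorem Ble (h : Cut ε C ψ B) {y : ℝ} (hy : 0 ≤ y) : B y ≤ C * y := by
  have h1 := h.lipB.dist_le_mul y 0
  rw [h.b0, Real.dist_eq, Real.dist_eq, sub_zero, sub_zero, Real.coe_toNNReal _ h.C_nonneg,
    abs_of_nonneg hy, abs_of_nonneg (h.Bnn y)] at h1
  exact h1

end Cut

/-- `y ↦ (s max(y, ε^s/s))^{1/s}` is Lipschitz -/
theorem lip_root (hs : 1 < s) (hε : 0 < ε) :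
    LipschitzWith (ε ^ (1 - s)).toNNReal (fun y : ℝ => (s * max y (ε ^ s / s)) ^ (1 / s)) := by
  have hs0 : 0 < s := by linarith
  have hy0 : 0 < ε ^ s / s := by positivity
  have h1 : LipschitzOnWith (ε ^ (1 - s)).toNNReal (fun y : ℝ => (s * y) ^ (1 / s))
      (Ici (ε ^ s / s)) := by
    apply Convex.lipschitzOnWith_of_nnnorm_hasDerivWithin_le (convex_Ici _)
      (f' := fun y => (s * y) ^ (1 / s - 1))
    · intro y hy
      have hy' : 0 < y := lt_of_lt_of_le hy0 hy
      have h2 := (((hasDerivAt_id y).const_mul s)).rpow_const (p := 1 / s)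
        (Or.inl (by simpa using (mul_pos hs0 hy').ne'))
      refine (h2.congr_deriv ?_).hasDerivWithinAt
      simp only [id]
      field_simp
    · intro y hy
      have hy' : 0 < y := lt_of_lt_of_le hy0 hy
      rw [← NNReal.coe_le_coe, coe_nnnorm, Real.norm_of_nonneg (by positivity),
        Real.coe_toNNReal _ (by positivity)]
      have h3 : ε ^ s ≤ s * y := by
        have : ε ^ s / s ≤ y := hy
        rw [div_le_iff₀ hs0] at this; linarith
      have h4 : ε ^ (1 - s) = (ε ^ s) ^ (1 / s - 1) := by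
        rw [← Real.rpow_mul hε.le]; congr 1; field_simp
      rw [h4]
      apply Real.rpow_le_rpow_of_nonpos (by positivity) h3
      have : 1 / s < 1 := by rw [div_lt_one hs0]; exact hs
      linarith
  have h2 : LipschitzWith 1 (fun y : ℝ => max y (ε ^ s / s)) :=
    LipschitzWith.id.max_const _
  have h3 := h1.comp (h2.lipschitzOnWith (s := univ)) (fun y _ => le_max_right y (ε ^ s / s))
  rw [lipschitzOnWith_univ, mul_one] at h3
  exact h3

theorem B_GG_eq (h : Cut ε C ψ B) (hs : 1 < s) {t : ℝ} (ht1 : t < 1) (hw : ∀ x, 0 ≤ w x) (x : E d)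
    (ht : 0 < t) :
    B (t * GG s w x) = B (t * (s * max (w x) (ε ^ s / s)) ^ (1 / s)) := by
  have hs0 : 0 < s := by linarith
  have hε := h.eps
  rcases le_total (ε ^ s / s) (w x) with h1 | h1
  · rw [max_eq_left h1]; rfl
  · rw [max_eq_right h1]
    have e1 : (s * (ε ^ s / s)) ^ (1 / s) = ε := by
      rw [mul_div_cancel₀ _ hs0.ne', ← Real.rpow_mul hε.le, mul_one_div_cancel hs0.ne',
        Real.rpow_one]
    have h2 : GG s w x ≤ ε := by
      rw [GG, ← e1]
      apply Real.rpow_le_rpow (mul_nonneg hs0.le (hw x)) _ (by positivity)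
      gcongr
    have h3 : 0 ≤ GG s w x := GG_nonneg hs0 hw x
    rw [e1, h.Bzero (by nlinarith), h.Bzero (by nlinarith)]

theorem lipZ_B (h : Cut ε C ψ B) (hs : 1 < s) {t : ℝ} (ht : 0 < t) (ht1 : t < 1)
    (hw : IsTor p Ω w) : LipZ Ω (fun x => B (t * GG s w x)) := by
  have hs0 : 0 < s := by linarith
  constructor
  · have e : (fun x => B (t * GG s w x)) =
        fun x => B (t * (s * max (w x) (ε ^ s / s)) ^ (1 / s)) :=
      funext fun x => B_GG_eq h hs ht1 hw.nonneg x ht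
    rw [e]
    exact ((hw.lip.comp (lip_root hs h.eps)).const_mul t).comp h.lipB
  · intro x hx
    simp only []
    rw [hw.GG_zero hs0 hx, mul_zero, h.b0]

theorem grad_B (h : Cut ε C ψ B) (hs : 1 < s) (t : ℝ) (hw : IsTor p Ω w) {x : E d}
    (hx : x ∈ Ω) (hdx : DifferentiableAt ℝ w x) :
    ∇ (fun y => B (t * GG s w y)) x = (t * ψ (t * GG s w x)) • ∇ (GG s w) x := by
  have hs0 : 0 < s := by linarith
  have h1 : HasDerivAt (fun y => B (t * y)) (t * ψ (t * GG s w x)) (GG s w x) := by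
    have := (h.der (t * GG s w x)).comp (GG s w x) ((hasDerivAt_id (GG s w x)).const_mul t)
    refine this.congr_deriv ?_
    ring
  exact grad_comp h1 (differentiableAt_GG hs0 (hw.pos x hx) hdx)

/-- bound for `|∇G|^p` -/
theorem z_le (hps : p.HolderConjugate s) (hw : IsTor p Ω w) {L : ℝ≥0} (hL : LipschitzWith L w)
    {x : E d} (hx : x ∈ Ω) : GG s w x ^ s * ‖∇ (GG s w) x‖ ^ p ≤ (L : ℝ) ^ p := by
  have hs0 := hps.symm.pos
  have hG := GG_pos hs0 (hw.pos x hx)
  by_cases hdx : DifferentiableAt ℝ w x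
  · rw [← norm_grad_w_rpow hps (hw.pos x hx) hdx]
    exact Real.rpow_le_rpow (norm_nonneg _) (norm_grad_le hL x) hps.pos.le
  · have h1 : ¬ DifferentiableAt ℝ (GG s w) x := by
      intro hc
      apply hdx
      have e : w = fun y => s⁻¹ * (GG s w y) ^ s := by
        funext y
        rw [GG_rpow hs0 (hw.nonneg y)]
        field_simp
      rw [e]
      exact (hc.rpow_const (Or.inl hG.ne')).const_mul _
    have h2 : ∇ (GG s w) x = 0 := by
      rw [gradient, fderiv_zero_of_not_differentiableAt h1]; simp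
    rw [h2, norm_zero, Real.zero_rpow hps.pos.ne', mul_zero]
    positivity

theorem measurable_z (p : ℝ) (G : E d → ℝ) : Measurable fun x => ‖∇ G x‖ ^ p :=
  (measurable_grad G).norm.pow_const p

/-- `|∇G|^p ≤ L^p ε^{-s}` where `G > ε` -/
theorem z_le' (hps : p.HolderConjugate s) (hw : IsTor p Ω w) {L : ℝ≥0} (hL : LipschitzWith L w)
    (hε : 0 < ε) {x : E d} (hx : x ∈ Ω) (hG : ε ≤ GG s w x) :
    ‖∇ (GG s w) x‖ ^ p ≤ (L : ℝ) ^ p / ε ^ s := by
  have h1 := z_le hps hw hL hx
  have hs0 := hps.symm.pos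
  rw [le_div_iff₀ (by positivity)]
  have h2 : ε ^ s ≤ GG s w x ^ s := Real.rpow_le_rpow hε.le hG hs0.le
  have h3 : 0 ≤ ‖∇ (GG s w) x‖ ^ p := Real.rpow_nonneg (norm_nonneg _) _
  nlinarith

end KLow
end PTor
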