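import Pool.Agent.Lib_helper35.PT.Core

/-!
# MODULE K: the lower bound
-/

open MeasureTheory Set Metric Filter Topology
open scoped RealInnerProductSpace NNReal ENNReal Gradient

namespace PTor
namespace KLow

open K1

variable {d : ℕ} {p s : ℝ} {Ω : Set (E d)} {w : E d → ℝ} {ε C : ℝ} {ψ B : ℝ → ℝ}

/-- cut-off -/
noncomputable def chi (ε y : ℝ) : ℝ := max 0 (min 1 ((y - ε) / ε))

theorem chi_cont (ε : ℝ) : Continuous (chi ε) := by unfold chi; fun_prop

theorem chi_nonneg (ε y : ℝ) : 0 ≤ chi ε y := le_max_left _ _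

theorem chi_le_one (ε y : ℝ) : chi ε y ≤ 1 := max_le zero_le_one (min_le_left _ _)

theorem chi_zero (hε : 0 < ε) {y : ℝ} (hy : y ≤ ε) : chi ε y = 0 := by
  unfold chi
  refine max_eq_left ((min_le_right _ _).trans ?_)
  exact div_nonpos_of_nonpos_of_nonneg (by linarith) hε.le

theorem chi_one (hε : 0 < ε) {y : ℝ} (hy : 2 * ε ≤ y) : chi ε y = 1 := by
  unfold chi
  have : 1 ≤ (y - ε) / ε := by rw [le_div_iff₀ hε]; linarith
  rw [min_eq_left this, max_eq_right zero_le_one]

/-- the truncated `ψ` -/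
noncomputable def psiE (d : ℕ) (s m ε y : ℝ) : ℝ :=
  chi ε y * (dPsi d s (min (max y 0) m / m) / m)

noncomputable def BE (d : ℕ) (s m ε y : ℝ) : ℝ := ∫ u in (0:ℝ)..y, psiE d s m ε u

theorem psiE_cont (hs : 1 < s) (m ε : ℝ) : Continuous (psiE d s m ε) := by
  have h1 := chi_cont ε
  have h2 := continuous_dPsi (d := d) hs
  unfold psiE
  fun_prop

theorem dPsi_arg (hs : 1 < s) {m : ℝ} (hm : 0 < m) (y : ℝ) :
    0 ≤ dPsi d s (min (max y 0) m / m) ∧ dPsi d s (min (max y 0) m / m) ≤ s := by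
  have h0 : 0 ≤ min (max y 0) m / m := div_nonneg (le_min (le_max_right _ _) hm.le) hm.le
  have h1 : min (max y 0) m / m ≤ 1 := by rw [div_le_one hm]; exact min_le_right _ _
  exact ⟨dPsi_nonneg hs h0, dPsi_le hs h0 h1⟩

theorem cutE (hs : 1 < s) {m : ℝ} (hm : 0 < m) (hε : 0 < ε) :
    Cut ε (s / m) (psiE d s m ε) (BE d s m ε) where
  eps := hε
  cont := psiE_cont hs m ε
  nn y := by
    unfold psiE
    exact mul_nonneg (chi_nonneg _ _) (div_nonneg (dPsi_arg hs hm y).1 hm.le)
  le y := by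
    unfold psiE
    have h1 := (dPsi_arg (d := d) hs hm y)
    calc chi ε y * (dPsi d s (min (max y 0) m / m) / m)
        ≤ 1 * (s / m) := by
          apply mul_le_mul (chi_le_one _ _) _ (div_nonneg h1.1 hm.le) zero_le_one
          exact div_le_div_of_nonneg_right h1.2 hm.le
      _ = s / m := one_mul _
  zero y hy := by
    unfold psiE
    rw [chi_zero hε hy, zero_mul]
  der y := intervalIntegral.integral_hasDerivAt_right ((psiE_cont hs m ε).intervalIntegrable _ _)
      (psiE_cont hs m ε).stronglyMeasurable.stronglyMeasurableAtFilter (psiE_cont hs m ε).continuousAt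
  b0 := by simp [BE]

theorem psiE_eq {m y : ℝ} (hy0 : 0 ≤ y) (hym : y ≤ m) :
    psiE d s m ε y = chi ε y * (dPsi d s (y / m) / m) := by
  unfold psiE
  rw [max_eq_left hy0, min_eq_left hym]

theorem BE_le (hs : 1 < s) (hd : 0 < d) {m y : ℝ} (hm : 0 < m) (hy0 : 0 ≤ y) (hym : y ≤ m) :
    BE d s m ε y ≤ Psi d s (y / m) := by
  have hder : ∀ x : ℝ, HasDerivAt (fun x => Psi d s (x / m)) (dPsi d s (x / m) / m) x := by
    intro x
    have := (hasDerivAt_Psi hs hd (x / m)).comp x ((hasDerivAt_id x).div_const m)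
    refine this.congr_deriv ?_
    ring
  have hc : Continuous fun x : ℝ => dPsi d s (x / m) / m := by
    have h2 := continuous_dPsi (d := d) hs
    fun_prop
  have e : Psi d s (y / m) = ∫ u in (0:ℝ)..y, dPsi d s (u / m) / m := by
    rw [intervalIntegral.integral_eq_sub_of_hasDerivAt (fun x _ => hder x)
      (hc.intervalIntegrable _ _), zero_div, Psi_zero hs hd, sub_zero]
  rw [e, BE]
  apply intervalIntegral.integral_mono_on hy0 ((psiE_cont hs m ε).intervalIntegrable _ _)
    (hc.intervalIntegrable _ _)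
  intro u hu
  rw [psiE_eq hu.1 (hu.2.trans hym)]
  have h1 : 0 ≤ dPsi d s (u / m) / m := div_nonneg (dPsi_nonneg hs (div_nonneg hu.1 hm.le)) hm.le
  calc chi ε u * (dPsi d s (u / m) / m) ≤ 1 * (dPsi d s (u / m) / m) := by
        gcongr
        exact chi_le_one _ _
    _ = _ := one_mul _

/-- pointwise comparison -/
theorem ptw (hs : 1 < s) (hd : 0 < d) {m y : ℝ} (hm : 0 < m) (hy0 : 0 < y) (hym : y ≤ m) :
    (y - m) * psiE d s m ε y + d * BE d s m ε y ≤
      ((y / m) ^ s - bet d s) + s * (1 - chi ε y) := by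
  have h1 := Psi_eq hs hd (y / m)
  have h2 := BE_le (ε := ε) hs hd hm hy0.le hym
  rw [psiE_eq hy0.le hym]
  have h3 : 0 ≤ y / m := by positivity
  have h4 : y / m ≤ 1 := by rw [div_le_one hm]; exact hym
  have h5 := dPsi_nonneg (d := d) hs h3
  have h6 := dPsi_le (d := d) hs h3 h4
  have h7 := chi_le_one ε y
  have h8 : (y - m) * (chi ε y * (dPsi d s (y / m) / m)) =
      chi ε y * ((y / m - 1) * dPsi d s (y / m)) := by
    field_simp
  rw [h8]
  have hd0 : (0:ℝ) ≤ d := Nat.cast_nonneg d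
  have h9 : (d:ℝ) * BE d s m ε y ≤ d * Psi d s (y / m) := mul_le_mul_of_nonneg_left h2 hd0
  have h10 : (1 - chi ε y) * ((1 - y / m) * dPsi d s (y / m)) ≤ (1 - chi ε y) * s := by
    apply mul_le_mul_of_nonneg_left _ (by linarith)
    calc (1 - y / m) * dPsi d s (y / m) ≤ 1 * s := by
          apply mul_le_mul (by linarith) h6 h5 zero_le_one
      _ = s := one_mul _
  nlinarith

/-- MODULE K -/
theorem stmtLower (hTG : StmtTG) (hConc : StmtConc) (hPB : StmtPBound) : StmtLower := by
  intro d p s Ω w M hd hps hΩ hw hM hMx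
  obtain ⟨x₀, hx₀⟩ := hMx
  have hs0 := hps.symm.pos
  have hs1 := hps.symm.lt
  have hconc := hConc d p s Ω w hd hps hΩ hw
  have hL := hPB d p s Ω w M hd hps hΩ hw hconc hM ⟨x₀, hx₀⟩
  obtain ⟨a, ha⟩ := hΩ.1
  have hM0 : 0 < M := (hw.pos a ha).trans_le (hM a)
  set m : ℝ := (s * M) ^ (1 / s) with hm
  have hm0 : 0 < m := by positivity
  have hms : m ^ s = s * M := by
    rw [hm, ← Real.rpow_mul (by positivity), one_div_mul_cancel hs0.ne', Real.rpow_one]
  set G := GG s w with hG
  have hΩm : MeasurableSet Ω := hΩ.2.2.1.measurableSet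
  have hGm : Measurable G := (continuous_GG hs0 hw.lip.continuous).measurable
  have hG0 : ∀ x ∈ Ω, 0 < G x := fun x hx => GG_pos hs0 (hw.pos x hx)
  have hGle : ∀ x, G x ≤ m := fun x => by
    rw [hG, GG, hm]
    exact Real.rpow_le_rpow (mul_nonneg hs0.le (hw.nonneg x))
      (mul_le_mul_of_nonneg_left (hM x) hs0.le) (by positivity)
  have hwi : IntegrableOn (wt s) (Ioo 0 1) volume := by
    have := intervalIntegrable_wt hs1
    rwa [intervalIntegrable_iff_integrableOn_Ioo_of_le zero_le_one] at this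
  have hw0 : ∀ t ∈ Ioo (0:ℝ) 1, 0 ≤ wt s t := fun t ht => by
    linarith [(wt_bounds hs1 ht.1 ht.2).1]
  have hvol : volume Ω < ⊤ := J.vol_lt_top hΩ
  have : IsFiniteMeasure (volume.restrict Ω) := ⟨by rwa [Measure.restrict_apply_univ]⟩
  set μ := (volume.restrict Ω).prod (volume.restrict (Ioo (0:ℝ) 1)) with hμ
  have hμae : ∀ {P : E d × ℝ → Prop}, (∀ x ∈ Ω, ∀ t ∈ Ioo (0:ℝ) 1, P (x, t)) → ∀ᵐ q ∂μ, P q := by
    intro P hP
    rw [hμ, Measure.prod_restrict, ae_restrict_iff' (hΩm.prod measurableSet_Ioo)]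
    exact Eventually.of_forall fun q hq => hP q.1 hq.1 q.2 hq.2
  have htG : ∀ x ∈ Ω, ∀ t ∈ Ioo (0:ℝ) 1, 0 < t * G x ∧ t * G x ≤ m := fun x hx t ht => by
    have h1 := hG0 x hx
    have h2 := hGle x
    exact ⟨mul_pos ht.1 h1, by nlinarith [ht.2]⟩
  have hwprod : Integrable (fun q : E d × ℝ => wt s q.2) μ := by
    have := (integrable_const (μ := volume.restrict Ω) (1:ℝ)).mul_prod hwi
    simpa using this
  -- integrability
  have hprod : ∀ (f : ℝ → ℝ) (Kf : ℝ), Measurable f → (∀ y, 0 < y → y ≤ m → |f y| ≤ Kf) →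
      Integrable (fun q : E d × ℝ => wt s q.2 * f (q.2 * G q.1)) μ := by
    intro f Kf hf hK
    refine (hwprod.const_mul Kf).mono' ?_ ?_
    · apply Measurable.aestronglyMeasurable
      have m3 : Measurable fun q : E d × ℝ => wt s q.2 := (measurable_wt s).comp measurable_snd
      exact m3.mul (hf.comp (measurable_snd.mul (hGm.comp measurable_fst)))
    · refine hμae fun x hx t ht => ?_
      have h1 := htG x hx t ht
      rw [Real.norm_eq_abs, abs_mul, abs_of_nonneg (hw0 t ht), mul_comm]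
      exact mul_le_mul_of_nonneg_right (hK _ h1.1 h1.2) (hw0 t ht)
  -- the limit kernel
  set β := bet d s with hβ
  have iInf : Integrable (fun q : E d × ℝ => wt s q.2 * (((q.2 * G q.1) / m) ^ s - β)) μ := by
    refine hprod (fun y => (y / m) ^ s - β) (1 + |β|) (by fun_prop) fun y h0 h1 => ?_
    refine (abs_sub _ _).trans ?_
    have h2 : 0 ≤ y / m := by positivity
    have h3 : (y / m) ^ s ≤ 1 := Real.rpow_le_one h2 (by rw [div_le_one hm0]; exact h1) hs0.le
    rw [abs_of_nonneg (Real.rpow_nonneg h2 _)]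
    linarith
  have iR : ∀ ε : ℝ, Integrable (fun q : E d × ℝ => wt s q.2 * (1 - chi ε (q.2 * G q.1))) μ := by
    intro ε
    refine hprod (fun y => 1 - chi ε y) 1 ((measurable_const).sub (chi_cont ε).measurable)
      fun y h0 h1 => ?_
    have h2 := chi_nonneg ε y
    have h3 := chi_le_one ε y
    rw [abs_le]; constructor <;> linarith
  -- for every ε
  have main : ∀ ε : ℝ, 0 < ε → 0 ≤ (∫ q, wt s q.2 * (((q.2 * G q.1) / m) ^ s - β) ∂μ) +
      s * ∫ q, wt s q.2 * (1 - chi ε (q.2 * G q.1)) ∂μ := by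
    intro ε hε
    have hcut := cutE (d := d) hs1 hm0 hε
    have hcore := core hcut hTG hd hps hΩ hw hconc hM hM0 hx₀ hL
    rw [← hm] at hcore
    have iA : Integrable (fun q : E d × ℝ => wt s q.2 * ((q.2 * G q.1 - m) *
        psiE d s m ε (q.2 * G q.1) + d * BE d s m ε (q.2 * G q.1))) μ := by
      have hc1 := hcut.cont
      have hc2 := hcut.contB
      obtain ⟨Kf, hKf⟩ := isCompact_Icc.exists_bound_of_continuousOn (s := Icc 0 m)
        (f := fun y => (y - m) * psiE d s m ε y + d * BE d s m ε y)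
        (by apply Continuous.continuousOn; fun_prop)
      exact hprod (fun y => (y - m) * psiE d s m ε y + d * BE d s m ε y) Kf
        (by apply Continuous.measurable; fun_prop) fun y h0 h1 => hKf y ⟨h0.le, h1⟩
    rw [← integral_prod _ iA] at hcore
    refine hcore.trans ?_
    rw [← integral_const_mul, ← integral_add iInf ((iR ε).const_mul s)]
    refine integral_mono_ae iA (iInf.add ((iR ε).const_mul s)) ?_
    refine hμae fun x hx t ht => ?_
    have h1 := htG x hx t ht
    have h2 := ptw (ε := ε) hs1 hd hm0 h1.1 h1.2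
    have h3 := mul_le_mul_of_nonneg_left h2 (hw0 t ht)
    simp only
    linarith
  -- limit
  have hlim : Tendsto (fun n : ℕ => ∫ q, wt s q.2 * (1 - chi (1 / ((n:ℝ) + 1)) (q.2 * G q.1)) ∂μ)
      atTop (𝓝 0) := by
    have h0 : (∫ _q : E d × ℝ, (0:ℝ) ∂μ) = 0 := by simp
    rw [← h0]
    refine tendsto_integral_of_dominated_convergence (fun q => wt s q.2)
      (fun n => (iR _).aestronglyMeasurable) hwprod (fun n => ?_) ?_
    · refine hμae fun x hx t ht => ?_
      have h2 := chi_nonneg (1 / ((n:ℝ) + 1)) (t * G x)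
      have h3 := chi_le_one (1 / ((n:ℝ) + 1)) (t * G x)
      have h4 := hw0 t ht
      simp only []
      rw [Real.norm_eq_abs, abs_of_nonneg (mul_nonneg h4 (by linarith))]
      nlinarith
    · refine hμae fun x hx t ht => ?_
      have h1 := (htG x hx t ht).1
      apply tendsto_const_nhds.congr'
      have h2 : Tendsto (fun n : ℕ => 1 / ((n:ℝ) + 1)) atTop (𝓝 0) :=
        tendsto_one_div_add_atTop_nhds_zero_nat
      have h3 : ∀ᶠ n : ℕ in atTop, 1 / ((n:ℝ) + 1) < t * G x / 2 :=
        h2.eventually_lt_const (by positivity)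
      filter_upwards [h3] with n hn
      rw [chi_one (by positivity) (by linarith), sub_self, mul_zero]
  have hfin : 0 ≤ ∫ q, wt s q.2 * (((q.2 * G q.1) / m) ^ s - β) ∂μ := by
    have h1 := (hlim.const_mul s).const_add (∫ q, wt s q.2 * (((q.2 * G q.1) / m) ^ s - β) ∂μ)
    rw [mul_zero, add_zero] at h1
    exact ge_of_tendsto' h1 fun n => main _ (by positivity)
  rw [integral_prod _ iInf] at hfin
  -- the inner integral
  have hκ := one_le_kap hs1
  have hκ2 : kap s = s * ∫ t in Ioo (0:ℝ) 1, wt s t * t ^ s := by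
    have h1 := integral_wt hs1
    rw [intervalIntegral.integral_of_le zero_le_one, integral_Ioc_eq_integral_Ioo] at h1
    have h2 : kap s = ∫ t in Ioo (0:ℝ) 1, wt s t := by
      rw [kap, intervalIntegral.integral_of_le zero_le_one, integral_Ioc_eq_integral_Ioo]
    have i2 : IntegrableOn (fun t => wt s t * t ^ s) (Ioo 0 1) volume := by
      have hc := continuous_base hs1
      have := intervalIntegrable_wt_mul hs1 (f := fun t => t ^ s) (by fun_prop)
      rwa [intervalIntegrable_iff_integrableOn_Ioo_of_le zero_le_one] at this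
    have h3 : ∫ t in Ioo (0:ℝ) 1, wt s t * (1 - s * t ^ s) =
        (∫ t in Ioo (0:ℝ) 1, wt s t) - s * ∫ t in Ioo (0:ℝ) 1, wt s t * t ^ s := by
      rw [← integral_const_mul, ← integral_sub hwi (i2.const_mul s)]
      congr 1
      funext t
      ring
    rw [h3] at h1
    linarith
  have hinner : ∀ x ∈ Ω, ∫ t in Ioo (0:ℝ) 1, wt s t * (((t * G x) / m) ^ s - β) =
      kap s * (w x / m ^ s - β) := by
    intro x hx
    have i2 : IntegrableOn (fun t => wt s t * t ^ s) (Ioo 0 1) volume := by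
      have hc := continuous_base hs1
      have := intervalIntegrable_wt_mul hs1 (f := fun t => t ^ s) (by fun_prop)
      rwa [intervalIntegrable_iff_integrableOn_Ioo_of_le zero_le_one] at this
    have h2 : kap s = ∫ t in Ioo (0:ℝ) 1, wt s t := by
      rw [kap, intervalIntegral.integral_of_le zero_le_one, integral_Ioc_eq_integral_Ioo]
    have h3 : ∫ t in Ioo (0:ℝ) 1, wt s t * (((t * G x) / m) ^ s - β) =
        (G x / m) ^ s * (∫ t in Ioo (0:ℝ) 1, wt s t * t ^ s) - β * ∫ t in Ioo (0:ℝ) 1, wt s t := by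
      rw [← integral_const_mul, ← integral_const_mul, ← integral_sub (i2.const_mul _)
        (hwi.const_mul _)]
      apply setIntegral_congr_fun measurableSet_Ioo
      intro t ht
      simp only []
      rw [mul_div_assoc, Real.mul_rpow ht.1.le (div_nonneg (hG0 x hx).le hm0.le)]
      ring
    rw [h3, ← h2]
    have h4 : (G x / m) ^ s = s * w x / m ^ s := by
      rw [Real.div_rpow (hG0 x hx).le hm0.le, hG, GG_rpow hs0 (hw.nonneg x)]
    rw [h4]
    have h5 : s * w x / m ^ s * (∫ t in Ioo (0:ℝ) 1, wt s t * t ^ s) =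
        w x / m ^ s * (s * ∫ t in Ioo (0:ℝ) 1, wt s t * t ^ s) := by ring
    rw [h5, ← hκ2]
    ring
  rw [setIntegral_congr_fun hΩm hinner, integral_const_mul] at hfin
  have hcs := LipZ.hasCompactSupport hΩ.2.1 hw.lipZ
  have hwΩ : IntegrableOn w Ω volume := (hw.lip.integrable hcs).integrableOn
  have hD : 0 ≤ ∫ x in Ω, (w x / m ^ s - β) := by
    by_contra hc
    push Not at hc
    have := mul_neg_of_pos_of_neg (by linarith : 0 < kap s) hc
    linarith
  rw [integral_sub (hwΩ.div_const _) (integrableOn_const hvol.ne), integral_div,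
    setIntegral_const, smul_eq_mul] at hD
  have hwint : ∫ x, w x = ∫ x in Ω, w x :=
    (setIntegral_eq_integral_of_forall_compl_eq_zero fun x hx => hw.zero x hx).symm
  rw [hwint]
  rw [hms, sub_nonneg, le_div_iff₀ (by positivity)] at hD
  have e : β * (s * M) * (volume Ω).toReal = volume.real Ω * β * (s * M) := by
    rw [Measure.real]; ring
  rw [e]
  exact hD

end KLow

/-- MODULE K -/
theorem stmtLower (hTG : StmtTG) (hConc : StmtConc) (hPB : StmtPBound) : StmtLower :=
  KLow.stmtLower hTG hConc hPB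

end PTor
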