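import Pool.Agent.Lib_helper7.PT.Basic

/-!
# The inequality (star): `G - ⟨∇G, x - x₀⟩ ≥ m (1 + |∇G|^p)^{1/p}`
-/

open MeasureTheory Set Metric Filter Topology
open scoped RealInnerProductSpace NNReal ENNReal Gradient

namespace PTor
namespace KLow

variable {d : ℕ} {p s : ℝ} {Ω : Set (E d)} {w : E d → ℝ}

/-- tangent planes of concave functions -/
theorem concave_tangent {G : E d → ℝ} (hG : ConcaveOn ℝ Ω G) {x y : E d} (hx : x ∈ Ω)
    (hy : y ∈ Ω) (hd : DifferentiableAt ℝ G x) : G y ≤ G x + ⟪∇ G x, y - x⟫ := by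
  rw [inner_grad]
  have h1 : HasDerivAt (fun τ : ℝ => x + τ • (y - x)) (y - x) 0 := by
    have := ((hasDerivAt_id (0:ℝ)).smul_const (y - x)).const_add x
    simpa using this
  have hd' : HasFDerivAt G (fderiv ℝ G x) (x + (0:ℝ) • (y - x)) := by
    simpa using hd.hasFDerivAt
  have h2 : HasDerivAt (fun τ : ℝ => G (x + τ • (y - x))) (fderiv ℝ G x (y - x)) 0 :=
    hd'.comp_hasDerivAt 0 h1
  have h3 := h2.tendsto_slope_zero_right
  have h4 : ∀ᶠ τ : ℝ in 𝓝[>] 0, G y - G x ≤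
      τ⁻¹ • (G (x + (0 + τ) • (y - x)) - G (x + (0:ℝ) • (y - x))) := by
    filter_upwards [Ioo_mem_nhdsGT (zero_lt_one' ℝ)] with τ hτ
    have h5 := hG.2 hx hy (show (0:ℝ) ≤ 1 - τ by linarith [hτ.2]) hτ.1.le (by ring)
    have h6 : (1 - τ) • x + τ • y = x + (0 + τ) • (y - x) := by
      rw [zero_add, sub_smul, one_smul, smul_sub]; abel
    rw [h6] at h5
    simp only [smul_eq_mul, zero_smul, add_zero] at h5 ⊢
    rw [inv_mul_eq_div, le_div_iff₀ hτ.1]
    nlinarith
  have h7 := ge_of_tendsto h3 h4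
  linarith

/-- the inequality (star) -/
theorem star (hps : p.HolderConjugate s) (hw : IsTor p Ω w)
    (hconc : ConcaveOn ℝ Ω (GG s w)) {M : ℝ} {x₀ : E d} (hM : ∀ x, w x ≤ M) (hM0 : 0 < M)
    (hx₀ : w x₀ = M) (hL : LipschitzWith 1 (fun x => (s * (M - w x)) ^ (1 / s))) {x : E d}
    (hx : x ∈ Ω) (hdx : DifferentiableAt ℝ w x) :
    (s * M) ^ (1 / s) * (1 + ‖∇ (GG s w) x‖ ^ p) ^ (1 / p) ≤
      GG s w x - ⟪∇ (GG s w) x, x - x₀⟫ := by
  have hs := hps.symm.pos
  have hs1 := hps.symm.lt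
  have hp := hps.pos
  have hp1 := hps.lt
  have hsum : 1 / p + 1 / s = 1 := by simpa using hps.inv_add_inv_eq_one
  set m : ℝ := (s * M) ^ (1 / s) with hm
  have hsM : 0 < s * M := mul_pos hs hM0
  have hm0 : 0 < m := Real.rpow_pos_of_pos hsM _
  have hms : m ^ s = s * M := by
    rw [hm, ← Real.rpow_mul hsM.le, one_div_mul_cancel hs.ne', Real.rpow_one]
  set G := GG s w with hG
  set ξ := ∇ G x with hξ
  have hdG : DifferentiableAt ℝ G x := differentiableAt_GG hs (hw.pos x hx) hdx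
  -- the lower bound `G(y)^s ≥ m^s - |y - x₀|^s`
  have hlow : ∀ y, m ^ s - ‖y - x₀‖ ^ s ≤ s * w y := by
    intro y
    have h1 := hL.dist_le_mul y x₀
    rw [hx₀, sub_self, mul_zero, Real.zero_rpow (one_div_ne_zero hs.ne'), Real.dist_eq, sub_zero,
      NNReal.coe_one, one_mul, dist_eq_norm] at h1
    have hnn : 0 ≤ s * (M - w y) := mul_nonneg hs.le (by linarith [hM y])
    rw [abs_of_nonneg (Real.rpow_nonneg hnn _)] at h1
    have h2 := Real.rpow_le_rpow (Real.rpow_nonneg hnn _) h1 hs.le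
    rw [← Real.rpow_mul hnn, one_div_mul_cancel hs.ne', Real.rpow_one] at h2
    rw [hms]
    linarith
  set z : ℝ := ‖ξ‖ ^ p with hz
  have hz0 : 0 ≤ z := Real.rpow_nonneg (norm_nonneg _) _
  have hz1 : 0 < 1 + z := by linarith
  -- choice of the point
  set A : ℝ := (1 + z) ^ (1 / s) with hA
  have hA0 : 0 < A := Real.rpow_pos_of_pos hz1 _
  have hAs : A ^ s = 1 + z := by
    rw [hA, ← Real.rpow_mul hz1.le, one_div_mul_cancel hs.ne', Real.rpow_one]
  obtain ⟨y, hy1, hy2⟩ : ∃ y : E d, ‖y - x₀‖ ^ s = m ^ s * z / (1 + z) ∧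
      ⟪ξ, y - x₀⟫ = - (m * z / A) := by
    rcases eq_or_ne ξ 0 with h0 | h0
    · refine ⟨x₀, ?_, ?_⟩
      · have : z = 0 := by rw [hz, h0, norm_zero, Real.zero_rpow hp.ne']
        rw [sub_self, norm_zero, Real.zero_rpow hs.ne', this]; simp
      · have : z = 0 := by rw [hz, h0, norm_zero, Real.zero_rpow hp.ne']
        rw [sub_self, inner_zero_right, this]; simp
    · have hn : 0 < ‖ξ‖ := norm_pos_iff.2 h0
      have hzn : z = ‖ξ‖ ^ (p - 1) * ‖ξ‖ := by
        rw [hz, ← Real.rpow_add_one hn.ne']; congr 1; ring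
      refine ⟨x₀ - (m * ‖ξ‖ ^ (p - 1) / A / ‖ξ‖) • ξ, ?_, ?_⟩
      · have hτ : 0 ≤ m * ‖ξ‖ ^ (p - 1) / A := by positivity
        have e1 : ‖x₀ - (m * ‖ξ‖ ^ (p - 1) / A / ‖ξ‖) • ξ - x₀‖ = m * ‖ξ‖ ^ (p - 1) / A := by
          rw [sub_sub_cancel_left, norm_neg, norm_smul, Real.norm_of_nonneg (by positivity),
            div_mul_cancel₀ _ hn.ne']
        rw [e1, Real.div_rpow (by positivity) hA0.le, Real.mul_rpow hm0.le (by positivity), hAs,
          ← Real.rpow_mul hn.le]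
        have e2 : (p - 1) * s = p := hps.sub_one_mul_conj
        rw [e2]
      · rw [sub_sub_cancel_left, inner_neg_right, real_inner_smul_right,
          real_inner_self_eq_norm_sq, hzn]
        field_simp
  -- `y ∈ Ω`
  have hwy : m ^ s / (1 + z) ≤ s * w y := by
    have h1 := hlow y
    rw [hy1] at h1
    have h2 : m ^ s - m ^ s * z / (1 + z) = m ^ s / (1 + z) := by
      field_simp
      ring
    rwa [h2] at h1
  have hms0 : 0 < m ^ s / (1 + z) := by positivity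
  have hwy0 : 0 < w y := by
    by_contra hc
    push Not at hc
    have : s * w y ≤ 0 := mul_nonpos_of_nonneg_of_nonpos hs.le hc
    linarith
  have hyΩ : y ∈ Ω := by
    by_contra hc
    rw [hw.zero y hc] at hwy0
    exact lt_irrefl _ hwy0
  have hGy : m / A ≤ G y := by
    have h1 := Real.rpow_le_rpow hms0.le hwy (one_div_pos.2 hs).le
    have h2 : (m ^ s / (1 + z)) ^ (1 / s) = m / A := by
      rw [Real.div_rpow (by positivity) hz1.le, ← Real.rpow_mul hm0.le,
        mul_one_div_cancel hs.ne', Real.rpow_one]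
    rwa [h2] at h1
  have htan := concave_tangent hconc hx hyΩ hdG
  have e1 : ⟪ξ, y - x⟫ = ⟪ξ, y - x₀⟫ - ⟪ξ, x - x₀⟫ := by
    rw [← inner_sub_right]; congr 1; abel
  rw [← hξ, e1, hy2] at htan
  have e2 : m * (1 + z) ^ (1 / p) = m / A + m * z / A := by
    have e3 : (1 + z) ^ (1 / p) * A = 1 + z := by
      rw [hA, ← Real.rpow_add hz1, hsum, Real.rpow_one]
    rw [← add_div, eq_div_iff hA0.ne', mul_assoc, e3]
    ring
  rw [e2]
  linarith

end KLow
end PTor
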